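import Pool.Agent.H72.UV.Targets

/-!
# Universal classes, module DEC: infinitely many wild types give many substructures
-/

set_option autoImplicit false

open Set Filter Topology

namespace Pool.Agent.H81.UV

open Pool.Agent.H71 (Fx orb acl mem_acl_of_mem_orb self_mem_orb orb_symm orb_trans)
open Pool.Agent.H72.UV

/-- what is needed about the tower -/
structure Facts (G : ℕ → Subgroup (Equiv.Perm ℕ)) : Prop where
  self : ∀ x, x ∉ Kinf G → x ∈ comp G x
  disj : ∀ x, x ∉ Kinf G → ∀ y ∈ comp G x, y ∉ Kinf G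
  eqc : ∀ x, x ∉ Kinf G → ∀ y ∈ comp G x, comp G y = comp G x
  mt : ∀ x x', x ∉ Kinf G → Seq G x x' → ∀ y ∈ comp G x, ∃ y' ∈ comp G x', Seq G y y'
  tm : ∀ x x', Seq G x x' → (Tame G x ↔ Tame G x')
  ti : ∀ x, Tame G x → ∃ y : ℕ → ℕ, (∀ k, Seq G x (y k)) ∧ ∀ k k', k ≠ k' → y k' ∉ comp G (y k)

section

variable {G : ℕ → Subgroup (Equiv.Perm ℕ)}

lemma seq_refl (x : ℕ) : Seq G x x := fun _ => self_mem_orb _ _ _

lemma seq_symm {x y : ℕ} (h : Seq G x y) : Seq G y x := fun m => orb_symm (h m)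

lemma seq_trans {x y z : ℕ} (h : Seq G x y) (h' : Seq G y z) : Seq G x z :=
  fun m => orb_trans (h m) (h' m)

lemma seq_nk {x y : ℕ} (h : Seq G x y) (hx : x ∉ Kinf G) : y ∉ Kinf G := by
  intro hy
  apply hx
  obtain ⟨m, hm⟩ := mem_iUnion.1 hy
  exact mem_iUnion.2 ⟨m, mem_acl_of_mem_orb (orb_symm (h m)) hm⟩

lemma cj_one : cj G (fun _ => 1) = G := by
  funext m
  ext g
  simp [cj, Subgroup.mem_comap]

lemma thread_one : Thread G (fun _ => 1) := by
  intro m D _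
  exact ⟨1, (G m).one_mem, fun x _ => by simp⟩

lemma facts (hTOW : T_TOW) (hMATCH : T_MATCH) (hTAM : T_TAM) (hG : Tower G) : Facts G := by
  obtain ⟨-, -, -, -, h5, -, -⟩ := hTOW G hG
  have hT := hTAM G hG (fun _ => 1) (fun _ => 1) thread_one thread_one
  rw [cj_one] at hT
  refine ⟨fun x hx => (h5 x hx).1, fun x hx y hy hyK => ?_, fun x hx => (h5 x hx).2.2, ?_, ?_, ?_⟩
  · exact Set.disjoint_left.1 (h5 x hx).2.1 hy hyK
  · intro x x' hx hs y hy
    obtain ⟨f, -, hb, hm⟩ := hMATCH G hG (fun _ => 1) (fun _ => 1) thread_one thread_one x x'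
      (by rw [cj_one]; exact hx) (fun m => hs m)
    rw [cj_one] at hb hm
    refine ⟨f y, hb.mapsTo hy, fun m => ?_⟩
    obtain ⟨g, hg, hgy⟩ := hm m {y} (by simpa using hy)
    refine ⟨g, ⟨hg, by simp⟩, ?_⟩
    have := hgy y (by simp)
    simpa using this.symm
  · intro x x' hs
    exact hT.1 x x' (fun m => hs m)
  · intro x hx
    obtain ⟨y, hy, hy'⟩ := hT.2 x hx
    exact ⟨y, fun k m => hy k m, hy'⟩

/-- `v` has the type of `u` -/
def R (G : ℕ → Subgroup (Equiv.Perm ℕ)) (u v : ℕ) : Prop := ∃ u' ∈ comp G u, Seq G v u'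

variable (hF : Facts G)
include hF

lemma R_refl {u : ℕ} (hu : u ∉ Kinf G) : R G u u := ⟨u, hF.self u hu, seq_refl u⟩

lemma R_nk {u v : ℕ} (hu : u ∉ Kinf G) (h : R G u v) : v ∉ Kinf G := by
  obtain ⟨u', hu', hs⟩ := h
  exact seq_nk (seq_symm hs) (hF.disj u hu u' hu')

lemma R_symm {u v : ℕ} (hu : u ∉ Kinf G) (h : R G u v) : R G v u := by
  obtain ⟨u', hu', hs⟩ := h
  have hu'K := hF.disj u hu u' hu'
  obtain ⟨y', hy', hsy⟩ := hF.mt u' v hu'K (seq_symm hs) u (by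
    rw [hF.eqc u hu u' hu']; exact hF.self u hu)
  exact ⟨y', hy', hsy⟩

lemma R_trans {u v w : ℕ} (hu : u ∉ Kinf G) (h : R G u v) (h' : R G v w) : R G u w := by
  have hv := R_nk hF hu h
  obtain ⟨u', hu', hs⟩ := h
  obtain ⟨v', hv', hs'⟩ := h'
  obtain ⟨y', hy', hsy⟩ := hF.mt v u' hv hs v' hv'
  rw [hF.eqc u hu u' hu'] at hy'
  exact ⟨y', hy', seq_trans hs' hsy⟩

lemma R_of_comp {u v : ℕ} (hu : u ∉ Kinf G) (h : v ∈ comp G u) : R G u v :=
  ⟨v, h, seq_refl v⟩

lemma R_of_seq {u v : ℕ} (hu : u ∉ Kinf G) (h : Seq G u v) : R G u v :=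
  ⟨u, hF.self u hu, seq_symm h⟩

lemma Tame_comp {u v : ℕ} (hu : u ∉ Kinf G) (h : v ∈ comp G u) : Tame G u ↔ Tame G v := by
  have h1 := hF.eqc u hu v h
  have h2 := hF.disj u hu v h
  unfold Tame
  rw [h1]
  simp [hu, h2]

lemma Tame_R {u v : ℕ} (hu : u ∉ Kinf G) (h : R G u v) : Tame G u ↔ Tame G v := by
  obtain ⟨u', hu', hs⟩ := h
  rw [Tame_comp hF hu hu', ← hF.tm v u' hs]

lemma Wild_R {u v : ℕ} (hu : u ∉ Kinf G) (h : R G u v) : Wild G u ↔ Wild G v := by
  unfold Wild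
  rw [Tame_R hF hu h]
  simp [hu, R_nk hF hu h]

omit hF in
/-- representative of the type -/
noncomputable def rep (G : ℕ → Subgroup (Equiv.Perm ℕ)) (u : ℕ) : ℕ := sInf {v | R G u v}

lemma rep_spec {u : ℕ} (hu : u ∉ Kinf G) : R G u (rep G u) :=
  Nat.sInf_mem (s := {v | R G u v}) ⟨u, R_refl hF hu⟩

lemma rep_eq {u v : ℕ} (hu : u ∉ Kinf G) (h : R G u v) : rep G u = rep G v := by
  unfold rep
  congr 1
  ext w
  have hv := R_nk hF hu h
  exact ⟨fun hw => R_trans hF hv (R_symm hF hu h) hw, fun hw => R_trans hF hu h hw⟩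

omit hF in
/-- the wild points of other types in the chosen components -/
def WW (G : ℕ → Subgroup (Equiv.Perm ℕ)) (x : ℕ → ℕ) : Set ℕ :=
  {u | Wild G u ∧ (∀ n, ¬ R G u (x n)) ∧ u ∈ comp G (rep G u)}

omit hF in
/-- the dimensions -/
def ff (z : ℕ → Bool) (n : ℕ) : ℕ := 2 * n + 2 + if z n = true then 1 else 0

omit hF in
/-- the substructures -/
def BB (G : ℕ → Subgroup (Equiv.Perm ℕ)) (x : ℕ → ℕ) (y : ℕ → ℕ → ℕ) (z : ℕ → Bool) : Set ℕ :=
  Kinf G ∪ ({u | Tame G u} ∪ (WW G x ∪ {u | ∃ n k, k < ff z n ∧ u ∈ comp G (y n k)}))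

omit hF in
/-- dimension at least `N` -/
def DimGE (G : ℕ → Subgroup (Equiv.Perm ℕ)) (B : Set ℕ) (u N : ℕ) : Prop :=
  ∃ v : Fin N → ℕ, (∀ i, v i ∈ B ∧ Seq G u (v i)) ∧ ∀ i j, i ≠ j → v j ∉ comp G (v i)

variable {x : ℕ → ℕ} {y : ℕ → ℕ → ℕ} (hx : ∀ n, Wild G (x n))
  (hxx : ∀ i j, i ≠ j → ∀ y ∈ comp G (x i), ¬ Seq G (x j) y)
  (hy : ∀ n k, Seq G (x n) (y n k)) (hyy : ∀ n k k', k ≠ k' → y n k' ∉ comp G (y n k))
include hx hxx hy hyy

omit hxx hyy in
lemma y_nk (n k : ℕ) : y n k ∉ Kinf G := seq_nk (hy n k) (hx n).1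

omit hxx hyy in
lemma y_R (n k : ℕ) : R G (y n k) (x n) :=
  R_of_seq hF (y_nk hF hx hy n k) (seq_symm (hy n k))

omit hy hyy in
lemma x_ne {i j : ℕ} (h : R G (x i) (x j)) : i = j := by
  by_contra hij
  obtain ⟨u', hu', hs⟩ := h
  exact hxx i j hij u' hu' hs

omit hxx hyy in
lemma comp_sub (z : ℕ → Bool) : ∀ u ∈ BB G x y z, u ∉ Kinf G → comp G u ⊆ BB G x y z := by
  intro u hu huK a ha
  have haK := hF.disj u huK a ha
  rcases hu with hu | hu | hu | ⟨n, k, hk, hu⟩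
  · exact absurd hu huK
  · exact Or.inr (Or.inl ((Tame_comp hF huK ha).1 hu))
  · refine Or.inr (Or.inr (Or.inl ?_))
    obtain ⟨h1, h2, h3⟩ := hu
    have hR := R_of_comp hF huK ha
    have hrK : rep G u ∉ Kinf G := R_nk hF huK (rep_spec hF huK)
    refine ⟨(Wild_R hF huK hR).1 h1, fun n hn => h2 n (R_trans hF huK hR hn), ?_⟩
    rw [← rep_eq hF huK hR, ← hF.eqc _ hrK u h3]
    exact ha
  · refine Or.inr (Or.inr (Or.inr ⟨n, k, hk, ?_⟩))
    rw [← hF.eqc _ (y_nk hF hx hy n k) u hu]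
    exact ha

omit hxx hyy in
lemma wild_mem (z : ℕ → Bool) : ∀ u, Wild G u → ∃ v ∈ BB G x y z, Seq G u v := by
  intro u hu
  by_cases h : ∃ n, R G u (x n)
  · obtain ⟨n, hn⟩ := h
    have h1 : R G (y n 0) u :=
      R_trans hF (y_nk hF hx hy n 0) (y_R hF hx hy n 0) (R_symm hF hu.1 hn)
    obtain ⟨u', hu', hs⟩ := h1
    refine ⟨u', Or.inr (Or.inr (Or.inr ⟨n, 0, ?_, hu'⟩)), hs⟩
    unfold ff; omega
  · push Not at h
    have h1 := R_symm hF hu.1 (rep_spec hF hu.1)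
    obtain ⟨u', hu', hs⟩ := h1
    refine ⟨u', Or.inr (Or.inr (Or.inl ?_)), hs⟩
    have hR := R_of_seq hF hu.1 hs
    refine ⟨(Wild_R hF hu.1 hR).1 hu, fun n hn => h n (R_trans hF hu.1 hR hn), ?_⟩
    rw [← rep_eq hF hu.1 hR]
    exact hu'

/-- the dimension of the types of `x n` -/
lemma dim_x (z : ℕ → Bool) {n u N : ℕ} (hu : R G (x n) u) :
    DimGE G (BB G x y z) u N ↔ N ≤ ff z n := by
  have huK := R_nk hF (hx n).1 hu
  have hux := R_symm hF (hx n).1 hu
  constructor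
  · rintro ⟨v, hv, hd⟩
    have hc : ∀ i, ∃ k, k < ff z n ∧ v i ∈ comp G (y n k) := by
      intro i
      obtain ⟨hvi, hsi⟩ := hv i
      have hvR : R G (v i) (x n) :=
        R_trans hF (seq_nk hsi huK) (R_of_seq hF (seq_nk hsi huK) (seq_symm hsi)) hux
      have hvK := seq_nk hsi huK
      have hvW : Wild G (v i) := (Wild_R hF hvK hvR).2 (hx n)
      rcases hvi with h | h | h | ⟨n', k, hk, h⟩
      · exact absurd h hvK
      · exact absurd h hvW.2
      · exact absurd hvR (h.2.1 n)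
      · have h1 : R G (x n) (x n') := by
          refine R_trans hF (hx n).1 (R_symm hF hvK hvR) ?_
          refine R_trans hF hvK (R_symm hF (y_nk hF hx hy n' k)
            (R_of_comp hF (y_nk hF hx hy n' k) h)) (y_R hF hx hy n' k)
        have h2 := x_ne hF hx hxx h1
        subst h2
        exact ⟨k, hk, h⟩
    choose K hK hK' using hc
    have hinj : Function.Injective (fun i => (⟨K i, hK i⟩ : Fin (ff z n))) := by
      intro i j hij
      by_contra hne
      have h1 : K i = K j := by simpa using hij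
      apply hd i j hne
      rw [hF.eqc _ (y_nk hF hx hy n (K i)) _ (hK' i), h1]
      exact hK' j
    simpa using Fintype.card_le_of_injective _ hinj
  · intro hN
    have hc : ∀ i : Fin N, ∃ v ∈ comp G (y n i), Seq G u v := by
      intro i
      exact R_trans hF (y_nk hF hx hy n i) (y_R hF hx hy n i) hu
    choose v hv hs using hc
    refine ⟨v, fun i => ⟨Or.inr (Or.inr (Or.inr ⟨n, i, by omega, hv i⟩)), hs i⟩, ?_⟩
    intro i j hij hvj
    have hnij : (i : ℕ) ≠ j := fun h => hij (Fin.ext h)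
    apply hyy n i j hnij
    rw [hF.eqc _ (y_nk hF hx hy n i) _ (hv i)] at hvj
    rw [← hF.eqc _ (y_nk hF hx hy n i) _ hvj, hF.eqc _ (y_nk hF hx hy n j) _ (hv j)]
    exact hF.self _ (y_nk hF hx hy n j)

omit hxx hyy in
/-- the dimension of the other wild types -/
lemma dim_o (z : ℕ → Bool) {u N : ℕ} (hu : Wild G u) (ho : ∀ n, ¬ R G u (x n))
    (h : DimGE G (BB G x y z) u N) : N ≤ 1 := by
  obtain ⟨v, hv, hd⟩ := h
  by_contra hN
  push Not at hN
  have hc : ∀ i, comp G (v i) = comp G (rep G u) ∧ v i ∉ Kinf G := by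
    intro i
    obtain ⟨hvi, hsi⟩ := hv i
    have hvK := seq_nk hsi hu.1
    have huv := R_of_seq hF hu.1 hsi
    have hvW : Wild G (v i) := (Wild_R hF hu.1 huv).1 hu
    refine ⟨?_, hvK⟩
    rcases hvi with h | h | h | ⟨n', k, hk, h⟩
    · exact absurd h hvK
    · exact absurd h hvW.2
    · obtain ⟨-, -, h3⟩ := h
      rw [rep_eq hF hu.1 huv]
      exact hF.eqc _ (R_nk hF hvK (rep_spec hF hvK)) _ h3
    · exfalso
      apply ho n'
      refine R_trans hF hu.1 huv ?_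
      exact R_trans hF hvK (R_symm hF (y_nk hF hx hy n' k)
        (R_of_comp hF (y_nk hF hx hy n' k) h)) (y_R hF hx hy n' k)
  apply hd ⟨0, by omega⟩ ⟨1, by omega⟩ (by simp)
  rw [(hc ⟨0, by omega⟩).1, ← (hc ⟨1, by omega⟩).1]
  exact hF.self _ (hc ⟨1, by omega⟩).2

omit hx hxx hy hyy in
/-- the dimension of tame types -/
lemma dim_t (z : ℕ → Bool) {u : ℕ} (hu : Tame G u) (N : ℕ) : DimGE G (BB G x y z) u N := by
  obtain ⟨w, hw, hw'⟩ := hF.ti u hu
  refine ⟨fun i => w i, fun i => ⟨Or.inr (Or.inl ((hF.tm _ _ (hw i)).1 hu)), hw i⟩, ?_⟩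
  intro i j hij
  exact hw' i j (fun h => hij (Fin.ext h))

end

/-- DEC: infinitely many wild types of infinite dimension give `Many`. -/
theorem dec (hTOW : T_TOW) (hTOWN : T_TOWN) (hMATCH : T_MATCH) (hTAM : T_TAM) (hSUB : T_SUB)
    (hBASE : T_BASE) (hISO : T_ISO) : T_DEC := by
  intro C c hc G hG x hx hxx y hy hyy
  have hTw : Tower G := by rw [hG]; exact hTOWN C c hc
  have hF : Facts G := facts hTOW hMATCH hTAM hTw
  have hbase : ∀ z : ℕ → Bool, ∀ m a, a ∉ acl (G m) ∅ → (orb (G m) ∅ a ∩ BB G x y z).Infinite :=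
    fun z => hBASE G hTw (BB G x y z) (fun a ha => Or.inl ha) (comp_sub hF hx hy z)
      (fun a ha => Or.inr (Or.inl ha)) (wild_mem hF hx hy z)
  have hsub : ∀ z : ℕ → Bool, ∀ m, ∃ f : ℕ → ℕ, BijOn f (BB G x y z) univ ∧
      Loc (G m) (BB G x y z) f :=
    fun z => hSUB G hTw (BB G x y z) (fun a ha => Or.inl ha) (comp_sub hF hx hy z) (hbase z)
  refine ⟨ℕ, inferInstance, c, ∅, BB G x y, ?_, ?_, ?_, ?_, ?_⟩
  · intro F
    exact ⟨id, injOn_id _, fun l _ => by simp⟩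
  · intro a
    have : {z | a ∈ BB G x y z} = {z | a ∈ Kinf G ∨ Tame G a ∨ a ∈ WW G x} ∪
        ⋃ n, ⋃ k, {z : ℕ → Bool | k < ff z n} ∩ {z | a ∈ comp G (y n k)} := by
      ext z
      constructor
      · rintro (h | h | h | ⟨n, k, hk, h⟩)
        · exact Or.inl (Or.inl h)
        · exact Or.inl (Or.inr (Or.inl h))
        · exact Or.inl (Or.inr (Or.inr h))
        · exact Or.inr (mem_iUnion.2 ⟨n, mem_iUnion.2 ⟨k, hk, h⟩⟩)
      · rintro ((h | h | h) | h)
        · exact Or.inl h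
        · exact Or.inr (Or.inl h)
        · exact Or.inr (Or.inr (Or.inl h))
        · obtain ⟨n, h⟩ := mem_iUnion.1 h
          obtain ⟨k, hk, h⟩ := mem_iUnion.1 h
          exact Or.inr (Or.inr (Or.inr ⟨n, k, hk, h⟩))
    rw [this]
    refine MeasurableSet.union (MeasurableSet.const _) (MeasurableSet.iUnion fun n =>
      MeasurableSet.iUnion fun k => MeasurableSet.inter ?_ (MeasurableSet.const _))
    have : {z : ℕ → Bool | k < ff z n} = (fun z : ℕ → Bool => z n) ⁻¹'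
        {b : Bool | k < 2 * n + 2 + if b = true then 1 else 0} := by
      ext z; simp [ff]
    rw [this]
    exact (measurable_pi_apply n) (MeasurableSet.of_discrete)
  · intro z
    have h0 : x 0 ∉ acl (G 0) ∅ := fun h => (hx 0).1 (mem_iUnion.2 ⟨0, h⟩)
    exact (hbase z 0 (x 0) h0).mono inter_subset_right
  · intro z
    simp
  · intro z
    refine (countable_singleton z).mono ?_
    rintro z' ⟨φ, hφ, -⟩
    rw [mem_singleton_iff]
    obtain ⟨hi1, hi2, hi3⟩ := hISO C c hc (BB G x y z) (BB G x y z')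
      (by rw [hG] at hsub ⊢; exact hsub z) (by rw [hG] at hsub ⊢; exact hsub z') φ hφ
    simp only [← hG] at hi1 hi2 hi3
    -- transfer of dimensions
    have htr : ∀ u ∈ BB G x y z, u ∉ Kinf G → ∀ N, (DimGE G (BB G x y z) u N ↔
        DimGE G (BB G x y z') (φ u) N) := by
      intro u hu huK N
      constructor
      · rintro ⟨v, hv, hd⟩
        refine ⟨fun i => φ (v i), fun i => ⟨hφ.1.mapsTo (hv i).1,
          (hi2 u hu (v i) (hv i).1).1 (hv i).2⟩, ?_⟩
        intro i j hij h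
        exact hd i j hij ((hi3 (v i) (hv i).1 (v j) (hv j).1 (seq_nk (hv i).2 huK)).2 h)
      · rintro ⟨v, hv, hd⟩
        have hs : ∀ i, ∃ w ∈ BB G x y z, φ w = v i := fun i => hφ.1.surjOn (hv i).1
        choose w hw hw' using hs
        have hsq : ∀ i, Seq G u (w i) := fun i =>
          (hi2 u hu (w i) (hw i)).2 (by rw [hw']; exact (hv i).2)
        refine ⟨w, fun i => ⟨hw i, hsq i⟩, ?_⟩
        intro i j hij h
        apply hd i j hij
        rw [← hw' i, ← hw' j]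
        exact (hi3 (w i) (hw i) (w j) (hw j) (seq_nk (hsq i) huK)).1 h
    funext n
    have hK0 : y n 0 ∉ Kinf G := y_nk hF hx hy n 0
    have hB0 : y n 0 ∈ BB G x y z := by
      refine Or.inr (Or.inr (Or.inr ⟨n, 0, ?_, hF.self _ hK0⟩))
      unfold ff; omega
    have hd0 : ∀ N, DimGE G (BB G x y z) (y n 0) N ↔ N ≤ ff z n := fun N =>
      dim_x hF hx hxx hy hyy z (R_of_seq hF (hx n).1 (hy n 0))
    have hK1 : φ (y n 0) ∉ Kinf G := fun h => hK0 ((hi1 _ hB0).2 h)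
    have hd1 : ∀ N, DimGE G (BB G x y z') (φ (y n 0)) N ↔ N ≤ ff z n := fun N => by
      rw [← htr _ hB0 hK0, hd0]
    by_cases hT : Tame G (φ (y n 0))
    · have := (hd1 (ff z n + 1)).1 (dim_t hF z' hT _)
      omega
    · have hW : Wild G (φ (y n 0)) := ⟨hK1, hT⟩
      by_cases hR : ∃ n', R G (φ (y n 0)) (x n')
      · obtain ⟨n', hn'⟩ := hR
        have hd2 : ∀ N, DimGE G (BB G x y z') (φ (y n 0)) N ↔ N ≤ ff z' n' := fun N =>
          dim_x hF hx hxx hy hyy z' (R_symm hF hK1 hn')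
        have e1 := (hd1 (ff z' n')).1 ((hd2 _).2 le_rfl)
        have e2 := (hd2 (ff z n)).1 ((hd1 _).2 le_rfl)
        have e3 : ff z n = ff z' n' := le_antisymm e2 e1
        unfold ff at e3
        have e4 : n = n' := by split_ifs at e3 <;> omega
        subst e4
        cases h1 : z n <;> cases h2 : z' n <;> simp_all
      · push Not at hR
        have h2 : 2 ≤ ff z n := by unfold ff; omega
        have := dim_o hF hx hy z' hW hR ((hd1 2).2 h2)
        omega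

end Pool.Agent.H81.UV
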